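import Pool.Agent.Work.MP_4c1a42_gt.Twist

set_option autoImplicit false

namespace Pool.Agent.Results.MP_4c1a42_gt.SeifertInvariant

open MP4c1a42

/-- Let `M = P / Γ` be a closed aspherical Seifert fibred 3-manifold (or orbifold) covered by
`P = ℝ² × ℝ`, the fibres being the images of the vertical lines. The Reeb flow of every contact form
on `M` invariant under the rotation of the fibres has, for some `T`, infinitely many primitive closed
orbits of period at most `T`. -/
theorem result (Γ : Type) [Group Γ] [MulAction Γ P] (α : P → P →L[ℝ] ℝ) (R : P → P)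
    (hΓ : Seifert Γ) (hα : Contact Γ α) (hR : Reeb α R) :
    ∃ T : ℝ, (orbits Γ R T).Infinite :=
  final hΓ hα hR

end Pool.Agent.Results.MP_4c1a42_gt.SeifertInvariant
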